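import Pool.Agent.helper67.RG.Spec

/-!
# Row STB: stable subspaces are stable under the derivations
-/

namespace Pool.Agent.RG.STB

open Matrix Polynomial Pool.Agent.GO Pool.Agent.AR Pool.Agent.RG

theorem STB : STB_stmt := by
  intro F Γ m κ _ _ _ _ _ _ V ρ p hp B hB x hx
  obtain ⟨D, hD, _⟩ := hp
  by_contra hcon
  obtain ⟨l, hl, hlB⟩ := Submodule.exists_le_ker_of_notMem hcon
  -- the functional in coordinates
  have hlin : ∀ y : m → F, l y = ∑ i, l (Pi.single i 1) * y i := by
    intro y
    have h1 : y = ∑ i, y i • (Pi.single i (1 : F) : m → F) := by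
      ext j
      simp [Finset.sum_apply, Pi.single_apply]
    conv_lhs => rw [h1]
    rw [map_sum]
    exact Finset.sum_congr rfl fun i _ => by rw [map_smul, smul_eq_mul, mul_comm]
  have hmul : ∀ M : Matrix m m F, l (M *ᵥ x) =
      ∑ i, ∑ j, (l (Pi.single i 1) * x j) * M i j := by
    intro M
    rw [hlin]
    refine Finset.sum_congr rfl fun i _ => ?_
    rw [Matrix.mulVec, dotProduct, Finset.mul_sum]
    exact Finset.sum_congr rfl fun j _ => by ring
  let f : alg (ds V ρ) := ∑ i, ∑ j, (l (Pi.single i 1) * x j) •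
    gen (ds V ρ) (Sum.inl i) (Sum.inl j)
  have hf : f = 0 := by
    apply Subtype.ext
    funext h
    have h1 : f.1 h = ∑ i, ∑ j, (l (Pi.single i 1) * x j) * V h i j := by
      show (∑ i, ∑ j, (l (Pi.single i 1) * x j) •
        gen (ds V ρ) (Sum.inl i) (Sum.inl j) : alg (ds V ρ)).1 h = _
      rw [sum_alg_apply]
      refine Finset.sum_congr rfl fun i _ => ?_
      rw [sum_alg_apply]
      exact Finset.sum_congr rfl fun j _ => rfl
    rw [h1, ← hmul]
    exact hlB (hB h x hx)
  have hDf : D f = ∑ i, ∑ j, (l (Pi.single i 1) * x j) •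
      D (gen (ds V ρ) (Sum.inl i) (Sum.inl j)) := by
    simp only [f, map_sum]
    exact Finset.sum_congr rfl fun i _ => Finset.sum_congr rfl fun j _ => D.map_smul _ _
  rw [hf, map_zero] at hDf
  have h2 := congrArg (fun z : alg (ds V ρ) => z.1 1) hDf
  have h3 : (0 : F) = ∑ i, ∑ j, (l (Pi.single i 1) * x j) * p.1 i j := by
    calc (0 : F) = (0 : alg (ds V ρ)).1 1 := rfl
      _ = _ := h2
      _ = _ := by
        rw [sum_alg_apply]
        refine Finset.sum_congr rfl fun i _ => ?_
        rw [sum_alg_apply]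
        refine Finset.sum_congr rfl fun j _ => ?_
        show (l (Pi.single i 1) * x j) * (D (gen (ds V ρ) (Sum.inl i) (Sum.inl j))).1 1 = _
        rw [hD, map_one, one_mul]
  rw [← hmul] at h3
  exact hl h3.symm

end Pool.Agent.RG.STB
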